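import Pool.Agent.LE.StmtsQE

/-!
# Squad LQD, row TEQ: the ladder equation, an exact identity
-/

set_option autoImplicit false

open MeasureTheory ProbabilityTheory Function Filter

open scoped ENNReal BigOperators Topology NNReal ComplexOrder Matrix

noncomputable section

namespace Pool.Agent.LE.QD.H18

open Pool.Agent.Anderson hiding box mem_box card_box
open Pool.Agent.Loc Pool.Agent.Mob Pool.Agent.Helper54.Bal
  Pool.Agent.Helper96.EXP Pool.Agent.BED
open Pool.Agent.LE.MN Pool.Agent.LE.CL Pool.Agent.LE.IR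

/-- bounded continuous functions -/
def Bc {ι : Type} (F : (ι → ℝ) → ℂ) : Prop := Continuous F ∧ ∃ B : ℝ, ∀ V, ‖F V‖ ≤ B

section bc

variable {ι : Type} {F G : (ι → ℝ) → ℂ}

lemma Bc.const (c : ℂ) : Bc (fun _ : ι → ℝ => c) := ⟨continuous_const, ‖c‖, fun _ => le_rfl⟩

lemma Bc.add (hF : Bc F) (hG : Bc G) : Bc (fun V => F V + G V) := by
  obtain ⟨h1, B, hB⟩ := hF
  obtain ⟨h2, B', hB'⟩ := hG
  exact ⟨h1.add h2, B + B', fun V => (norm_add_le _ _).trans (add_le_add (hB V) (hB' V))⟩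

lemma Bc.mul (hF : Bc F) (hG : Bc G) : Bc (fun V => F V * G V) := by
  obtain ⟨h1, B, hB⟩ := hF
  obtain ⟨h2, B', hB'⟩ := hG
  refine ⟨h1.mul h2, B * B', fun V => ?_⟩
  rw [norm_mul]
  exact mul_le_mul (hB V) (hB' V) (norm_nonneg _) ((norm_nonneg _).trans (hB V))

lemma Bc.neg (hF : Bc F) : Bc (fun V => - F V) := by
  obtain ⟨h1, B, hB⟩ := hF
  exact ⟨h1.neg, B, fun V => by rw [norm_neg]; exact hB V⟩

lemma Bc.sub (hF : Bc F) (hG : Bc G) : Bc (fun V => F V - G V) := by
  have := hF.add hG.neg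
  simpa only [sub_eq_add_neg] using this

lemma Bc.conj (hF : Bc F) : Bc (fun V => (starRingEnd ℂ) (F V)) := by
  obtain ⟨h1, B, hB⟩ := hF
  exact ⟨Complex.continuous_conj.comp h1, B, fun V => by rw [RCLike.norm_conj]; exact hB V⟩

lemma Bc.sum {κ : Type} (s : Finset κ) {Φ : κ → (ι → ℝ) → ℂ} (h : ∀ i ∈ s, Bc (Φ i)) :
    Bc (fun V => ∑ i ∈ s, Φ i V) := by
  classical
  induction s using Finset.induction_on with
  | empty => simpa using Bc.const (ι := ι) 0
  | insert a s ha ih =>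
    have h1 := (h a (Finset.mem_insert_self a s)).add
      (ih fun i hi => h i (Finset.mem_insert_of_mem hi))
    simpa only [Finset.sum_insert ha] using h1

lemma Bc.integrable [Fintype ι] (hF : Bc F) (v : ℝ≥0) :
    Integrable F (Measure.pi fun _ : ι => gaussianReal 0 v) := by
  obtain ⟨h1, B, hB⟩ := hF
  exact Integrable.of_bound h1.aestronglyMeasurable B (Eventually.of_forall hB)

end bc

/-- coordinate times bounded function -/
lemma coord_integrable {ι : Type} [Fintype ι] {F : (ι → ℝ) → ℂ} (hF : Bc F) (v : ℝ≥0) (x : ι) :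
    Integrable (fun V : ι → ℝ => (V x : ℂ) * F V) (Measure.pi fun _ : ι => gaussianReal 0 v) := by
  obtain ⟨h1, B, hB⟩ := hF
  have h2 : Integrable (fun V : ι → ℝ => V x) (Measure.pi fun _ : ι => gaussianReal 0 v) := by
    have hmp : MeasurePreserving (fun V : ι → ℝ => V x)
        (Measure.pi fun _ : ι => gaussianReal 0 v) (gaussianReal 0 v) :=
      measurePreserving_eval _ x
    have hid : Integrable (fun t : ℝ => t) (gaussianReal 0 v) := by
      have := memLp_id_gaussianReal (μ := 0) (v := v) 1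
      exact this.integrable (by simp)
    exact hmp.integrable_comp_of_integrable hid
  refine (h2.ofReal (𝕜 := ℂ)).mul_bdd (c := B) h1.aestronglyMeasurable (Eventually.of_forall hB)

variable {d M : ℕ} [NeZero M]

/-- resolvent identity with a shift of the energy -/
lemma res_id (ral : RalStmt) (V : Tor d M → ℝ) {z ζ c : ℂ} (hz0 : 0 < z.im) (hζ : 0 < ζ.im)
    (h : ζ = z + c) (x b : Tor d M) :
    rs V z x b = rs (0 : Tor d M → ℝ) ζ x b -
      ∑ y, rs (0 : Tor d M → ℝ) ζ x y * ((V y : ℂ) + c) * rs V z y b := by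
  have h1 := (ral d M V z hz0).1.1
  have h2 := (ral d M (0 : Tor d M → ℝ) ζ hζ).1.2
  have h3 : hz V z = hz (0 : Tor d M → ℝ) ζ + Matrix.diagonal fun y => (V y : ℂ) + c := by
    unfold hz
    rw [add_assoc, Matrix.diagonal_add]
    congr 2
    funext y
    rw [h]
    simp
    ring
  have h4 : rs (0 : Tor d M → ℝ) ζ = rs V z +
      rs (0 : Tor d M → ℝ) ζ * (Matrix.diagonal fun y => (V y : ℂ) + c) * rs V z := by
    calc rs (0 : Tor d M → ℝ) ζ = rs (0 : Tor d M → ℝ) ζ * (hz V z * rs V z) := by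
          rw [h1, mul_one]
      _ = (rs (0 : Tor d M → ℝ) ζ * hz (0 : Tor d M → ℝ) ζ) * rs V z +
          rs (0 : Tor d M → ℝ) ζ * (Matrix.diagonal fun y => (V y : ℂ) + c) * rs V z := by
          rw [h3]
          noncomm_ring
      _ = _ := by rw [h2, one_mul]
  have h5 := congrFun (congrFun h4 x) b
  rw [Matrix.add_apply, Matrix.mul_apply] at h5
  simp only [Matrix.mul_diagonal] at h5
  rw [h5]
  ring

lemma ro_cast (V : Tor d M → ℝ) (z : ℂ) (C : Finset (Tor d M)) (x : Tor d M) :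
    (ro V z C x : ℂ) = ∑ b ∈ C, rs V z x b * (starRingEnd ℂ) (rs V z x b) := by
  unfold ro
  push_cast
  refine Finset.sum_congr rfl fun b _ => ?_
  rw [Complex.mul_conj, Complex.normSq_eq_norm_sq]
  push_cast
  rfl

/-- the pointwise identity -/
lemma pointwise (ral : RalStmt) (V : Tor d M → ℝ) {z ζ c : ℂ} (hz0 : 0 < z.im) (hζ : 0 < ζ.im)
    (h : ζ = z + c) (f : Tor d M → ℝ) (C : Finset (Tor d M)) :
    ∑ x, (f x : ℂ) * (ro V z C x : ℂ) =
      (∑ b ∈ C, ∑ a, (f a : ℂ) * rs (0 : Tor d M → ℝ) ζ a b * (starRingEnd ℂ) (rs V z a b)) -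
        ∑ x, ((V x : ℂ) + c) * yd V z ζ f C x := by
  have e1 : ∑ x, (f x : ℂ) * (ro V z C x : ℂ) =
      ∑ b ∈ C, ∑ x, (f x : ℂ) * (rs V z x b * (starRingEnd ℂ) (rs V z x b)) := by
    simp_rw [ro_cast, Finset.mul_sum]
    rw [Finset.sum_comm]
  have e2 : ∑ x, ((V x : ℂ) + c) * yd V z ζ f C x =
      ∑ b ∈ C, ∑ x, (f x : ℂ) * ((∑ y, rs (0 : Tor d M → ℝ) ζ x y * ((V y : ℂ) + c) * rs V z y b) *
        (starRingEnd ℂ) (rs V z x b)) := by
    unfold yd
    simp_rw [Finset.mul_sum, Finset.sum_mul]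
    rw [Finset.sum_comm]
    refine Finset.sum_congr rfl fun b _ => ?_
    simp_rw [Finset.mul_sum]
    rw [Finset.sum_comm]
    refine Finset.sum_congr rfl fun x _ => ?_
    refine Finset.sum_congr rfl fun y _ => ?_
    ring
  rw [e1, e2, ← Finset.sum_sub_distrib]
  refine Finset.sum_congr rfl fun b _ => ?_
  rw [← Finset.sum_sub_distrib]
  refine Finset.sum_congr rfl fun x _ => ?_
  rw [show rs V z x b * (starRingEnd ℂ) (rs V z x b) = (rs (0 : Tor d M → ℝ) ζ x b -
      ∑ y, rs (0 : Tor d M → ℝ) ζ x y * ((V y : ℂ) + c) * rs V z y b) *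
        (starRingEnd ℂ) (rs V z x b) by rw [← res_id ral V hz0 hζ h x b]]
  ring

lemma rs_bc (ral : RalStmt) {z : ℂ} (hz0 : 0 < z.im) (a b : Tor d M) :
    Bc (fun V : Tor d M → ℝ => rs V z a b) :=
  ⟨(ral d M 0 z hz0).2.2.2.2.2.2.2.2.2.1 a b, 1 / z.im,
    fun V => (ral d M V z hz0).2.2.2.2.2.2.2.2.2.2.2 a b⟩

lemma yd_bc (ral : RalStmt) {z ζ : ℂ} (hz0 : 0 < z.im) (f : Tor d M → ℝ) (C : Finset (Tor d M))
    (x : Tor d M) : Bc (fun V => yd V z ζ f C x) := by
  unfold yd
  refine Bc.sum _ fun b _ => ?_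
  refine (rs_bc ral hz0 x b).mul ?_
  refine Bc.sum _ fun a _ => ?_
  exact (rs_bc ral hz0 a b).conj.mul (Bc.const _)

lemma od_bc (ral : RalStmt) {z ζ : ℂ} (hz0 : 0 < z.im) (f : Tor d M → ℝ)
    (x : Tor d M) : Bc (fun V => od V z ζ f x) := by
  unfold od
  refine Bc.sum _ fun a _ => ?_
  exact (rs_bc ral hz0 a x).conj.mul (Bc.const _)

lemma ro_bc (ral : RalStmt) {z : ℂ} (hz0 : 0 < z.im) (C : Finset (Tor d M))
    (x : Tor d M) : Bc (fun V => (ro V z C x : ℂ)) := by
  simp_rw [ro_cast]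
  refine Bc.sum _ fun b _ => ?_
  exact (rs_bc ral hz0 x b).mul (rs_bc ral hz0 x b).conj

/-- the derivative of `yd` -/
lemma yd_deriv (ral : RalStmt) {z ζ : ℂ} (hz0 : 0 < z.im) (f : Tor d M → ℝ) (C : Finset (Tor d M))
    (x : Tor d M) (V : Tor d M → ℝ) :
    HasDerivAt (fun t : ℝ => yd (Function.update V x t) z ζ f C x)
      (-(rs V z x x * yd V z ζ f C x + (ro V z C x : ℂ) * od V z ζ f x)) (V x) := by
  have hd : ∀ a b : Tor d M, HasDerivAt (fun t : ℝ => rs (Function.update V x t) z a b)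
      (-(rs V z a x * rs V z x b)) (V x) := fun a b =>
    (ral d M V z hz0).2.2.2.2.2.2.2.2.1 x a b
  have hsym : ∀ a b : Tor d M, rs V z a b = rs V z b a := (ral d M V z hz0).2.1
  have hc : ∀ a b : Tor d M, HasDerivAt
      (fun t : ℝ => (starRingEnd ℂ) (rs (Function.update V x t) z a b))
      ((starRingEnd ℂ) (-(rs V z a x * rs V z x b))) (V x) := fun a b => (hd a b).star
  have hi : ∀ b : Tor d M, HasDerivAt (fun t : ℝ => ∑ a,
      (starRingEnd ℂ) (rs (Function.update V x t) z a b) *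
        ((f a : ℂ) * rs (0 : Tor d M → ℝ) ζ a x))
      (∑ a, (starRingEnd ℂ) (-(rs V z a x * rs V z x b)) *
        ((f a : ℂ) * rs (0 : Tor d M → ℝ) ζ a x)) (V x) := by
    intro b
    refine HasDerivAt.fun_sum fun a _ => ?_
    exact (hc a b).mul_const _
  have hm : ∀ b : Tor d M, HasDerivAt (fun t : ℝ => rs (Function.update V x t) z x b * ∑ a,
      (starRingEnd ℂ) (rs (Function.update V x t) z a b) *
        ((f a : ℂ) * rs (0 : Tor d M → ℝ) ζ a x))
      (-(rs V z x x * rs V z x b) * (∑ a, (starRingEnd ℂ) (rs V z a b) *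
        ((f a : ℂ) * rs (0 : Tor d M → ℝ) ζ a x)) + rs V z x b *
        (∑ a, (starRingEnd ℂ) (-(rs V z a x * rs V z x b)) *
        ((f a : ℂ) * rs (0 : Tor d M → ℝ) ζ a x))) (V x) := by
    intro b
    have := (hd x b).mul (hi b)
    rw [Function.update_eq_self] at this
    exact this
  have hs := HasDerivAt.fun_sum (u := C) fun b (_ : b ∈ C) => hm b
  have e : (-(rs V z x x * yd V z ζ f C x + (ro V z C x : ℂ) * od V z ζ f x)) =
      ∑ b ∈ C, (-(rs V z x x * rs V z x b) * (∑ a, (starRingEnd ℂ) (rs V z a b) *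
        ((f a : ℂ) * rs (0 : Tor d M → ℝ) ζ a x)) + rs V z x b *
        (∑ a, (starRingEnd ℂ) (-(rs V z a x * rs V z x b)) *
        ((f a : ℂ) * rs (0 : Tor d M → ℝ) ζ a x))) := by
    rw [ro_cast]
    unfold yd
    rw [Finset.mul_sum, Finset.sum_mul, ← Finset.sum_add_distrib, ← Finset.sum_neg_distrib]
    refine Finset.sum_congr rfl fun b _ => ?_
    have e1 : ∑ a, (starRingEnd ℂ) (-(rs V z a x * rs V z x b)) *
        ((f a : ℂ) * rs (0 : Tor d M → ℝ) ζ a x) = -((starRingEnd ℂ) (rs V z x b) *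
          od V z ζ f x) := by
      unfold od
      rw [Finset.mul_sum, ← Finset.sum_neg_distrib]
      refine Finset.sum_congr rfl fun a _ => ?_
      rw [map_neg, map_mul]
      ring
    rw [e1]
    ring
  rw [e]
  exact hs

/-- the free resolvent is translation invariant -/
lemma kk_eq (ral : RalStmt) {ζ : ℂ} (hζ : 0 < ζ.im) (x a : Tor d M) (t : ℝ) :
    ((kk ζ (x - a) * t : ℝ) : ℂ) = (starRingEnd ℂ) (rs (0 : Tor d M → ℝ) ζ a x) *
      ((t : ℂ) * rs (0 : Tor d M → ℝ) ζ a x) := by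
  have h1 := (ral d M (0 : Tor d M → ℝ) ζ hζ).2.2.2.2.2.2.1 a 0 (x - a)
  have h2 : tr a (0 : Tor d M → ℝ) = 0 := rfl
  rw [h2, add_zero, add_sub_cancel] at h1
  unfold kk
  rw [h1]
  have h3 := Complex.mul_conj (rs (0 : Tor d M → ℝ) ζ a x)
  rw [Complex.normSq_eq_norm_sq] at h3
  push_cast at h3 ⊢
  rw [← h3]
  ring

/-- **TEQ.** -/
theorem teq (ral : RalStmt) (ste : SteStmt) : TeqStmt := by
  intro d M _ v z ζ f C hz0 hζ hζz
  set g : ℂ := gb d M v z with hg
  have hgau : gau d M v = Measure.pi fun _ : Tor d M => gaussianReal 0 v := rfl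
  set w : Tor d M → ℂ := fun x => ∑ a, (starRingEnd ℂ) (rs (0 : Tor d M → ℝ) ζ a x) *
    ((f a : ℂ) * rs (0 : Tor d M → ℝ) ζ a x) with hw
  have hwc : ∀ x, ((∑ y, kk ζ (x - y) * f y : ℝ) : ℂ) = w x := by
    intro x
    rw [Complex.ofReal_sum]
    exact Finset.sum_congr rfl fun a _ => kk_eq ral hζ x a (f a)
  -- integrability
  have iY : ∀ x, Integrable (fun V => yd V z ζ f C x) (gau d M v) := fun x =>
    (yd_bc ral hz0 f C x).integrable v
  have iVY : ∀ x, Integrable (fun V => (V x : ℂ) * yd V z ζ f C x) (gau d M v) := fun x =>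
    coord_integrable (yd_bc ral hz0 f C x) v x
  have iGY : ∀ x, Integrable (fun V => rs V z x x * yd V z ζ f C x) (gau d M v) := fun x =>
    ((rs_bc ral hz0 x x).mul (yd_bc ral hz0 f C x)).integrable v
  have iR : ∀ x, Integrable (fun V => (ro V z C x : ℂ)) (gau d M v) := fun x =>
    (ro_bc ral hz0 C x).integrable v
  have iRO : ∀ x, Integrable (fun V => (ro V z C x : ℂ) * od V z ζ f x) (gau d M v) := fun x =>
    ((ro_bc ral hz0 C x).mul (od_bc ral hz0 f x)).integrable v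
  have iG : ∀ a b, Integrable (fun V => (starRingEnd ℂ) (rs V z a b)) (gau d M v) := fun a b =>
    (rs_bc ral hz0 a b).conj.integrable v
  -- integration by parts
  have hibp : ∀ x, ∫ V, (V x : ℂ) * yd V z ζ f C x ∂(gau d M v) =
      -(v * ((∫ V, rs V z x x * yd V z ζ f C x ∂(gau d M v)) +
        ∫ V, (ro V z C x : ℂ) * od V z ζ f x ∂(gau d M v))) := by
    intro x
    obtain ⟨c1, B1, b1⟩ := yd_bc (ζ := ζ) ral hz0 f C x
    obtain ⟨c2, B2, b2⟩ := (((rs_bc ral hz0 x x).mul (yd_bc (ζ := ζ) ral hz0 f C x)).add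
      ((ro_bc ral hz0 C x).mul (od_bc (ζ := ζ) ral hz0 f x))).neg
    have h := ste (Tor d M) v x (fun V => yd V z ζ f C x)
      (fun V => -(rs V z x x * yd V z ζ f C x + (ro V z C x : ℂ) * od V z ζ f x)) (max B1 B2)
      c1 c2 (fun V => (b1 V).trans (le_max_left _ _)) (fun V => (b2 V).trans (le_max_right _ _))
      (fun V => yd_deriv ral hz0 f C x V)
    rw [← hgau] at h
    rw [h, integral_neg, integral_add (iGY x) (iRO x)]
    ring
  -- left side
  have hL : ((∫ V, ∑ x, (f x - v * ∑ y, kk ζ (x - y) * f y) * ro V z C x ∂(gau d M v) : ℝ) : ℂ) =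
      (∑ b ∈ C, ∑ a, (f a : ℂ) * rs (0 : Tor d M → ℝ) ζ a b *
        ∫ V, (starRingEnd ℂ) (rs V z a b) ∂(gau d M v)) -
      (∑ x, ((∫ V, (V x : ℂ) * yd V z ζ f C x ∂(gau d M v)) +
        v * g * ∫ V, yd V z ζ f C x ∂(gau d M v))) -
      ∑ x, v * w x * ∫ V, (ro V z C x : ℂ) ∂(gau d M v) := by
    rw [← integral_complex_ofReal]
    have hp : ∀ V : Tor d M → ℝ,
        ((∑ x, (f x - v * ∑ y, kk ζ (x - y) * f y) * ro V z C x : ℝ) : ℂ) =
        (∑ b ∈ C, ∑ a, (f a : ℂ) * rs (0 : Tor d M → ℝ) ζ a b * (starRingEnd ℂ) (rs V z a b)) -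
        (∑ x, ((V x : ℂ) * yd V z ζ f C x + v * g * yd V z ζ f C x)) -
        ∑ x, v * w x * (ro V z C x : ℂ) := by
      intro V
      have h1 := pointwise ral V hz0 hζ hζz f C
      have h2 : ∑ x, ((V x : ℂ) + v * g) * yd V z ζ f C x =
          ∑ x, ((V x : ℂ) * yd V z ζ f C x + v * g * yd V z ζ f C x) :=
        Finset.sum_congr rfl fun x _ => by ring
      rw [← h2, ← h1, ← Finset.sum_sub_distrib, Complex.ofReal_sum]
      refine Finset.sum_congr rfl fun x _ => ?_
      rw [Complex.ofReal_mul, Complex.ofReal_sub, Complex.ofReal_mul, hwc]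
      ring
    simp_rw [hp]
    have i1 : Integrable (fun V => ∑ b ∈ C, ∑ a, (f a : ℂ) * rs (0 : Tor d M → ℝ) ζ a b *
        (starRingEnd ℂ) (rs V z a b)) (gau d M v) :=
      integrable_finsetSum _ fun b _ => integrable_finsetSum _ fun a _ => (iG a b).const_mul _
    have i2 : ∀ x, Integrable (fun V => (V x : ℂ) * yd V z ζ f C x + v * g * yd V z ζ f C x)
        (gau d M v) := fun x => (iVY x).add ((iY x).const_mul _)
    have i3 : Integrable (fun V => ∑ x, ((V x : ℂ) * yd V z ζ f C x + v * g * yd V z ζ f C x))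
        (gau d M v) := integrable_finsetSum _ fun x _ => i2 x
    have i4 : Integrable (fun V => ∑ x, v * w x * (ro V z C x : ℂ)) (gau d M v) :=
      integrable_finsetSum _ fun x _ => (iR x).const_mul _
    have i5 : Integrable (fun V => (∑ b ∈ C, ∑ a, (f a : ℂ) * rs (0 : Tor d M → ℝ) ζ a b *
        (starRingEnd ℂ) (rs V z a b)) -
        ∑ x, ((V x : ℂ) * yd V z ζ f C x + v * g * yd V z ζ f C x)) (gau d M v) := i1.sub i3
    rw [integral_sub i5 i4, integral_sub i1 i3]
    congr 1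
    · congr 1
      · rw [integral_finsetSum _ fun b _ => integrable_finsetSum _ fun a _ =>
          (iG a b).const_mul _]
        refine Finset.sum_congr rfl fun b _ => ?_
        rw [integral_finsetSum _ fun a _ => (iG a b).const_mul _]
        refine Finset.sum_congr rfl fun a _ => ?_
        rw [integral_const_mul]
      · rw [integral_finsetSum _ fun x _ => i2 x]
        refine Finset.sum_congr rfl fun x _ => ?_
        rw [integral_add (iVY x) ((iY x).const_mul _), integral_const_mul]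
    · rw [integral_finsetSum _ fun x _ => (iR x).const_mul _]
      refine Finset.sum_congr rfl fun x _ => ?_
      rw [integral_const_mul]
  -- right side
  have hR1 : ∫ V, ∑ x, (rs V z x x - g) * yd V z ζ f C x ∂(gau d M v) =
      ∑ x, ((∫ V, rs V z x x * yd V z ζ f C x ∂(gau d M v)) -
        g * ∫ V, yd V z ζ f C x ∂(gau d M v)) := by
    have hp : ∀ V : Tor d M → ℝ, ∑ x, (rs V z x x - g) * yd V z ζ f C x =
        ∑ x, (rs V z x x * yd V z ζ f C x - g * yd V z ζ f C x) := fun V =>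
      Finset.sum_congr rfl fun x _ => by ring
    simp_rw [hp]
    have i6 : ∀ x, Integrable (fun V => rs V z x x * yd V z ζ f C x - g * yd V z ζ f C x)
        (gau d M v) := fun x => (iGY x).sub ((iY x).const_mul _)
    rw [integral_finsetSum _ fun x _ => i6 x]
    refine Finset.sum_congr rfl fun x _ => ?_
    rw [integral_sub (iGY x) ((iY x).const_mul _), integral_const_mul]
  have hR2 : ∫ V, ∑ x, (od V z ζ f x - w x) * (ro V z C x : ℂ) ∂(gau d M v) =
      ∑ x, ((∫ V, (ro V z C x : ℂ) * od V z ζ f x ∂(gau d M v)) -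
        w x * ∫ V, (ro V z C x : ℂ) ∂(gau d M v)) := by
    have hp : ∀ V : Tor d M → ℝ, ∑ x, (od V z ζ f x - w x) * (ro V z C x : ℂ) =
        ∑ x, ((ro V z C x : ℂ) * od V z ζ f x - w x * (ro V z C x : ℂ)) := fun V =>
      Finset.sum_congr rfl fun x _ => by ring
    simp_rw [hp]
    have i6 : ∀ x, Integrable (fun V => (ro V z C x : ℂ) * od V z ζ f x - w x * (ro V z C x : ℂ))
        (gau d M v) := fun x => (iRO x).sub ((iR x).const_mul _)
    rw [integral_finsetSum _ fun x _ => i6 x]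
    refine Finset.sum_congr rfl fun x _ => ?_
    rw [integral_sub (iRO x) ((iR x).const_mul _), integral_const_mul]
  have hT : (∑ b ∈ C, ∑ a, (f a : ℂ) * rs (0 : Tor d M → ℝ) ζ a b *
        ∫ V, (starRingEnd ℂ) (rs V z a b) ∂(gau d M v)) =
      ∑ b ∈ C, ∑ a, (f a : ℂ) * rs (0 : Tor d M → ℝ) ζ a b *
        (starRingEnd ℂ) (∫ V, rs V z a b ∂(gau d M v)) := by
    refine Finset.sum_congr rfl fun b _ => Finset.sum_congr rfl fun a _ => ?_
    rw [← integral_conj]
  rw [hL, hR1, hR2, ← hT]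
  simp_rw [hibp]
  rw [Finset.mul_sum, Finset.mul_sum, sub_sub, sub_eq_add_neg, add_assoc, ← Finset.sum_add_distrib,
    ← Finset.sum_add_distrib, ← Finset.sum_neg_distrib]
  congr 1
  refine Finset.sum_congr rfl fun x _ => ?_
  ring

end Pool.Agent.LE.QD.H18

end
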